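import Pool.Agent.Helper65.DG.Grid

/-!
# Dark grids, module D: neighbours of dark vertices, edges through the dark rectangles
-/

set_option autoImplicit false

namespace Pool.Agent.Helper82.DG

open Pool.Agent.Helper18.RAC

variable {V : Type*} {H : SimpleGraph V} {X Y : V → ℝ} {E F a b : ℝ} {κ : GX → V} {M : ℕ}
  {c r i j : ℕ} {v p p' : V}

/-- the point `(x, y)` lies in the open dark rectangle number `(c, r)` -/
def InR (X Y : V → ℝ) (κ : GX → V) (c r : ℕ) (x y : ℝ) : Prop :=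
  X (κ (.v (.P false (2 * c)))) < x ∧ x < X (κ (.v (.P false (2 * c + 2)))) ∧
    Y (κ (.v (.P true (2 * r)))) < y ∧ y < Y (κ (.v (.P true (2 * r + 2))))

namespace GDraw

/-- the dark rectangles lie in the cell `NE` -/
theorem inR_NE (h : GDraw H X Y E F a b κ M) (hc : c + 1 < M) (hr : r + 1 < M) {x y : ℝ}
    (hin : InR X Y κ c r x y) : 0 < x ∧ 0 < y ∧ x + y < 1 := by
  obtain ⟨h1, h2, h3, h4⟩ := hin
  have a1 := (h.hP0 (2 * c) (by omega)).1
  have a2 := (h.hP1 (2 * r) (by omega)).1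
  have a3 := h.X_U hc
  have a4 := h.Y_U hr
  have a5 := (h.cross hc hr).2
  have a6 := (h.hU false (c + 1) hc).2.2
  have e1 : 2 * (c + 1) = 2 * c + 2 := by ring
  have e2 : 2 * (r + 1) = 2 * r + 2 := by ring
  rw [e1] at a3
  rw [e2] at a4
  exact ⟨by linarith, by linarith, by linarith⟩

/-- the neighbours of a dark vertex straight above or below -/
theorem nbr_vert (h : GDraw H X Y E F a b κ M) (hc : c + 1 < M) (hr0 : 1 ≤ r)
    (hr : r + 2 < M) (hv : H.Adj (κ (.v (.D c r))) v) (hX : X v = X (κ (.v (.D c r)))) :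
    v = κ (.v (.D c (r + 1))) ∨ v = κ (.v (.D c (r - 1))) := by
  obtain ⟨p1, p2⟩ := h.pos (c := c) (r := r) hc (by omega)
  obtain ⟨u1, u2⟩ := h.pos (c := c) (r := r + 1) hc (by omega)
  obtain ⟨d1, d2⟩ := h.pos (c := c) (r := r - 1) hc (by omega)
  have y1 := h.Y_lt (i := 2 * r + 1) (j := 2 * (r + 1) + 1) (by omega) (by omega)
  have y2 := h.Y_lt (i := 2 * (r - 1) + 1) (j := 2 * r + 1) (by omega) (by omega)
  have ad1 := h.adj_dc (c := c) (r := r) (by omega) (by omega)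
  have ad2 := h.adj_dc (c := c) (r := r - 1) (by omega) (by omega)
  have e : r - 1 + 1 = r := by omega
  rw [e] at ad2
  rcases lt_trichotomy (Y v) (Y (κ (.v (.D c r)))) with g | g | g
  · exact Or.inr (axis_y h.hd hv ad2.symm hX (by rw [d1, p1])
      (Or.inr ⟨g, by rw [d2, p2]; exact y2⟩))
  · by_contra hcon
    have hne : v ≠ κ (.v (.D c (r + 1))) := fun h1 => hcon (Or.inl h1)
    exact hv.ne (pt_eq_D h.hd ad1 hne hX g).symm
  · exact Or.inl (axis_y h.hd hv ad1 hX (by rw [u1, p1])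
      (Or.inl ⟨g, by rw [u2, p2]; exact y1⟩))

/-- the neighbours of a dark vertex -/
theorem nbr (h : GDraw H X Y E F a b κ M) (hc0 : 1 ≤ c) (hc : c + 2 < M) (hr0 : 1 ≤ r)
    (hr : r + 2 < M) (hv : H.Adj (κ (.v (.D c r))) v) :
    v = κ (.v (.D (c + 1) r)) ∨ v = κ (.v (.D (c - 1) r)) ∨ v = κ (.v (.D c (r + 1))) ∨
      v = κ (.v (.D c (r - 1))) ∨ InR X Y κ c r (X v) (Y v) := by
  obtain ⟨p1, p2⟩ := h.pos (c := c) (r := r) (by omega) (by omega)
  rcases h.step (by omega) (by omega) hv p1 p2 with g | g | g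
  · exact Or.inr (Or.inr (Or.inr (Or.inr g)))
  · rcases h.nbr_vert (by omega) hr0 hr hv (g.trans p1.symm) with g1 | g1
    · exact Or.inr (Or.inr (Or.inl g1))
    · exact Or.inr (Or.inr (Or.inr (Or.inl g1)))
  · have hs := h.swap
    rcases hs.nbr_vert (c := r) (r := c) (v := v) (by omega) hc0 hc hv (g.trans p2.symm) with
      g1 | g1
    · exact Or.inl g1
    · exact Or.inr (Or.inl g1)

/-- an edge which meets a dark rectangle ends in the three cells -/
theorem through (h : GDraw H X Y E F a b κ M) (hc : c + 1 < M) (hr : r + 1 < M)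
    (hp : H.Adj p p') {s : ℝ} (hs0 : 0 ≤ s) (hs1 : s ≤ 1)
    (hin : InR X Y κ c r ((1 - s) * X p + s * X p') ((1 - s) * Y p + s * Y p')) :
    NE X Y p' ∨ SE X Y b p' ∨ NW X Y a p' := by
  obtain ⟨n1, n2, n3⟩ := h.inR_NE hc hr hin
  obtain ⟨h1, h2, h3, h4⟩ := hin
  rcases (h.rect hc hr).through h.hd hp hs0 hs1 h1 h2 h3 h4 with g | g | g
  · exact Or.inl (h.inR_NE hc hr g)
  · have e : (1 - s) * X p + s * X p' = X p := by rw [g]; ring
    rw [e] at n1 n3
    rcases vert_end h.hd h.hk hp g hs0 hs1 n1 n2 n3 with g1 | g1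
    · exact Or.inl g1
    · exact Or.inr (Or.inl g1)
  · have e : (1 - s) * Y p + s * Y p' = Y p := by rw [g]; ring
    rw [e] at n2 n3
    rcases horz_end h.hd h.hk hp g hs0 hs1 n2 n1 n3 with g1 | g1
    · exact Or.inl g1
    · exact Or.inr (Or.inr g1)

end GDraw

end Pool.Agent.Helper82.DG
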