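import Pool.Agent.Helper18.RAC.Defs

/-!
# A linear bound on the number of edges of a right-angle-crossing graph

`rac_edges_le`: at most `6 n` edges. The edges fall into two classes (directions in a half-open
quadrant and in the next one); inside a class no two edges cross, and a planar family of segments
has at most `3 n` members: every segment is the steepest one leaving its left end, or the lowest
slope arriving at its right end, or the first one below some vertex.
-/

set_option autoImplicit false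

namespace Pool.Agent.Helper82.DG

open Pool.Agent.Helper18.RAC Complex

variable {V : Type*}

namespace Lin

/-- the slope of the segment `e` -/
noncomputable def sl (x y : V → ℝ) (e : V × V) : ℝ := (y e.2 - y e.1) / (x e.2 - x e.1)

/-- the height of the line through the segment `e` at the abscissa `t` -/
noncomputable def ht (x y : V → ℝ) (e : V × V) (t : ℝ) : ℝ := y e.1 + (t - x e.1) * sl x y e

theorem ht_fst (x y : V → ℝ) (e : V × V) : ht x y e (x e.1) = y e.1 := by
  unfold ht
  ring

theorem ht_snd {x y : V → ℝ} {e : V × V} (h : x e.1 < x e.2) : ht x y e (x e.2) = y e.2 := by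
  unfold ht sl
  have h1 : x e.2 - x e.1 ≠ 0 := by linarith
  field_simp
  ring

theorem ht_snd' {x y : V → ℝ} {e : V × V} (h : x e.1 < x e.2) (t : ℝ) :
    ht x y e t = y e.2 - (x e.2 - t) * sl x y e := by
  have h1 := ht_snd (y := y) h
  rw [← h1]
  unfold ht
  ring

/-- a planar family of segments -/
structure Pl (x y : V → ℝ) (A : Set (V × V)) : Prop where
  inj : ∀ u v, x u = x v → y u = y v → u = v
  lt : ∀ e ∈ A, x e.1 < x e.2
  vtx : ∀ e ∈ A, ∀ w, x e.1 < x w → x w < x e.2 → y w ≠ ht x y e (x w)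
  crs : ∀ e ∈ A, ∀ g ∈ A, e ≠ g → ∀ t, x e.1 < t → t < x e.2 → x g.1 < t → t < x g.2 →
    ht x y e t ≠ ht x y g t

/-- two segments do not change their order -/
theorem Pl.nocross {x y : V → ℝ} {A : Set (V × V)} (h : Pl x y A) {e g : V × V} (he : e ∈ A)
    (hg : g ∈ A) {p q : ℝ} (hpq : p < q) (e1 : x e.1 ≤ p) (e2 : q ≤ x e.2) (g1 : x g.1 ≤ p)
    (g2 : q ≤ x g.2) (hp : ht x y e p < ht x y g p) (hq : ht x y g q < ht x y e q) : False := by
  have hne : e ≠ g := by
    rintro rfl
    exact lt_irrefl _ hp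
  set D1 := ht x y g p - ht x y e p with hD1
  set D2 := ht x y e q - ht x y g q with hD2
  have h1 : 0 < D1 := by rw [hD1]; linarith
  have h2 : 0 < D2 := by rw [hD2]; linarith
  have h3 : 0 < D1 + D2 := by linarith
  have k0 : 0 < (q - p) * (D1 / (D1 + D2)) := mul_pos (by linarith) (div_pos h1 h3)
  have k1 : (q - p) * (D1 / (D1 + D2)) < q - p := by
    have : D1 / (D1 + D2) < 1 := by rw [div_lt_one h3]; linarith
    nlinarith
  refine h.crs e he g hg hne (p + (q - p) * (D1 / (D1 + D2))) (by linarith) (by linarith)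
    (by linarith) (by linarith) ?_
  have a1 : ∀ t, ht x y g t - ht x y e t = D1 + (t - p) * (sl x y g - sl x y e) := by
    intro t
    rw [hD1]
    unfold ht
    ring
  have a2 : -D2 = D1 + (q - p) * (sl x y g - sl x y e) := by
    rw [← a1 q, hD2]
    ring
  have a3 := a1 (p + (q - p) * (D1 / (D1 + D2)))
  have a4 : D1 + (p + (q - p) * (D1 / (D1 + D2)) - p) * (sl x y g - sl x y e) = 0 := by
    have a5 : (q - p) * (sl x y g - sl x y e) = -(D1 + D2) := by linarith
    have a6 : (p + (q - p) * (D1 / (D1 + D2)) - p) * (sl x y g - sl x y e) =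
        ((q - p) * (sl x y g - sl x y e)) * (D1 / (D1 + D2)) := by ring
    rw [a6, a5]
    field_simp
    ring
  rw [a4] at a3
  linarith

/-- the third kind of segment: the first one below the vertex `w` -/
def T3 (x y : V → ℝ) (A : Set (V × V)) (e : V × V) (w : V) : Prop :=
  x e.1 < x w ∧ x w < x e.2 ∧ ht x y e (x w) < y w ∧
    ∀ g ∈ A, x g.1 < x w → x w < x g.2 → ht x y e (x w) < ht x y g (x w) →
      ¬ ht x y g (x w) < y w

theorem Pl.three [Finite V] {x y : V → ℝ} {A : Set (V × V)} (h : Pl x y A) {e : V × V}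
    (he : e ∈ A) (n1 : ∃ g ∈ A, g.1 = e.1 ∧ sl x y e < sl x y g)
    (n2 : ∃ g ∈ A, g.2 = e.2 ∧ sl x y g < sl x y e) : ∃ w, T3 x y A e w := by
  classical
  -- the edge `e1`
  obtain ⟨e1, ⟨he1, hf1, hs1⟩, hmin1⟩ : ∃ g, (g ∈ A ∧ g.1 = e.1 ∧ sl x y e < sl x y g) ∧
      ∀ k, (k ∈ A ∧ k.1 = e.1 ∧ sl x y e < sl x y k) → sl x y g ≤ sl x y k := by
    obtain ⟨g, hg⟩ := n1
    obtain ⟨m, hm, hmin⟩ := Set.exists_min_image {g | g ∈ A ∧ g.1 = e.1 ∧ sl x y e < sl x y g}
      (sl x y) (Set.toFinite _) ⟨g, hg⟩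
    exact ⟨m, hm, fun k hk => hmin k hk⟩
  obtain ⟨e2, he2, hf2, hs2⟩ := n2
  have le := h.lt e he
  have le1 := h.lt e1 he1
  have le2 := h.lt e2 he2
  have xu : x e1.1 = x e.1 := by rw [hf1]
  have yu : y e1.1 = y e.1 := by rw [hf1]
  have xv : x e2.2 = x e.2 := by rw [hf2]
  have yv : y e2.2 = y e.2 := by rw [hf2]
  -- `e1` is above `e` right of `u`
  have up1 : ∀ t, x e.1 < t → ht x y e t < ht x y e1 t := by
    intro t ht0
    unfold ht
    rw [xu, yu]
    nlinarith
  -- `e2` is above `e` left of `v`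
  have up2 : ∀ t, t < x e.2 → ht x y e t < ht x y e2 t := by
    intro t ht0
    rw [ht_snd' le, ht_snd' le2, xv, yv]
    nlinarith
  -- the set `S`
  have hS : ∃ w, x e.1 < x w ∧ x w < x e.2 ∧ x w ≤ x e1.2 ∧ ht x y e (x w) < y w ∧
      y w ≤ ht x y e1 (x w) := by
    rcases lt_or_ge (x e1.2) (x e.2) with hc | hc
    · refine ⟨e1.2, by linarith, hc, le_rfl, ?_, ?_⟩
      · have := up1 (x e1.2) (by linarith)
        rwa [ht_snd le1] at this
      · rw [ht_snd le1]
    · rcases le_or_gt (x e2.1) (x e.1) with hd | hd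
      · exfalso
        refine h.nocross he1 he2 le xu.le hc hd xv.ge ?_ ?_
        · have := up2 (x e.1) le
          have h2 : ht x y e1 (x e.1) = y e.1 := by rw [← xu, ht_fst, yu]
          rw [h2]
          rwa [ht_fst] at this
        · have := up1 (x e.2) le
          have h2 : ht x y e2 (x e.2) = y e.2 := by rw [← xv, ht_snd le2, yv]
          rw [h2]
          rwa [ht_snd le] at this
      · refine ⟨e2.1, hd, by linarith, by linarith, ?_, ?_⟩
        · have := up2 (x e2.1) (by linarith)
          rwa [ht_fst] at this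
        · by_contra hcon
          push Not at hcon
          refine h.nocross he1 he2 (p := x e2.1) (q := x e.2) (by linarith) (by linarith) hc
            le_rfl xv.ge ?_ ?_
          · rwa [ht_fst]
          · have := up1 (x e.2) le
            have h2 : ht x y e2 (x e.2) = y e.2 := by rw [← xv, ht_snd le2, yv]
            rw [h2]
            rwa [ht_snd le] at this
  obtain ⟨w, ⟨w1, w2, w3, w4, w5⟩, hmin⟩ : ∃ w, (x e.1 < x w ∧ x w < x e.2 ∧ x w ≤ x e1.2 ∧
      ht x y e (x w) < y w ∧ y w ≤ ht x y e1 (x w)) ∧ ∀ k, (x e.1 < x k ∧ x k < x e.2 ∧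
      x k ≤ x e1.2 ∧ ht x y e (x k) < y k ∧ y k ≤ ht x y e1 (x k)) → x w ≤ x k := by
    obtain ⟨w, hw⟩ := hS
    obtain ⟨m, hm, hmin⟩ := Set.exists_min_image {w | x e.1 < x w ∧ x w < x e.2 ∧
      x w ≤ x e1.2 ∧ ht x y e (x w) < y w ∧ y w ≤ ht x y e1 (x w)}
      x (Set.toFinite _) ⟨w, hw⟩
    exact ⟨m, hm, fun k hk => hmin k hk⟩
  refine ⟨w, w1, w2, w4, ?_⟩
  intro g hg g1 g2 g3 g4
  have lg := h.lt g hg
  have g5 : ht x y g (x w) < ht x y e1 (x w) := by linarith
  rcases le_or_gt (x g.1) (x e.1) with hc | hc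
  · rcases lt_trichotomy (ht x y g (x e.1)) (y e.1) with h1 | h1 | h1
    · refine h.nocross hg he w1 hc g2.le le_rfl w2.le ?_ g3
      rwa [ht_fst]
    · rcases lt_or_eq_of_le hc with h2 | h2
      · exact h.vtx g hg e.1 h2 (by linarith) h1.symm
      · have h3 : g.1 = e.1 := by
          refine h.inj _ _ h2 ?_
          rw [← h1, ← h2, ht_fst]
        have h4 : sl x y e < sl x y g := by
          have h5 : ht x y g (x w) - ht x y e (x w) = (x w - x e.1) * (sl x y g - sl x y e) := by
            unfold ht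
            rw [h3]
            ring
          by_contra hcon
          push Not at hcon
          have h6 : (x w - x e.1) * (sl x y g - sl x y e) ≤ 0 :=
            mul_nonpos_of_nonneg_of_nonpos (by linarith) (by linarith)
          linarith
        have h7 := hmin1 g ⟨hg, h3, h4⟩
        have h8 : ht x y g (x w) - ht x y e1 (x w) = (x w - x e.1) * (sl x y g - sl x y e1) := by
          unfold ht
          rw [h3, hf1]
          ring
        have h9 : 0 ≤ (x w - x e.1) * (sl x y g - sl x y e1) :=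
          mul_nonneg (by linarith) (by linarith)
        linarith
    · refine h.nocross he1 hg w1 xu.le w3 hc g2.le ?_ g5
      have h2 : ht x y e1 (x e.1) = y e.1 := by rw [← xu, ht_fst, yu]
      rwa [h2]
  · have hya := ht_fst x y g
    rcases lt_trichotomy (y g.1) (ht x y e (x g.1)) with h1 | h1 | h1
    · refine h.nocross hg he g1 le_rfl g2.le hc.le w2.le ?_ g3
      rwa [hya]
    · exact h.vtx e he g.1 hc (by linarith) h1
    · rcases lt_or_ge (ht x y e1 (x g.1)) (y g.1) with h2 | h2
      · refine h.nocross he1 hg g1 (by linarith) w3 le_rfl g2.le ?_ g5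
        rwa [hya]
      · have := hmin g.1 ⟨hc, by linarith, by linarith, h1, h2⟩
        linarith

/-- a planar family of segments has at most `3 n` members -/
theorem Pl.card_le [Finite V] {x y : V → ℝ} {A : Set (V × V)} (h : Pl x y A) :
    A.ncard ≤ 3 * Nat.card V := by
  classical
  set A1 : Set (V × V) := {e | e ∈ A ∧ ∀ g ∈ A, g.1 = e.1 → sl x y g ≤ sl x y e} with hA1
  set A2 : Set (V × V) := {e | e ∈ A ∧ ∀ g ∈ A, g.2 = e.2 → sl x y e ≤ sl x y g} with hA2
  set A3 : Set (V × V) := {e | e ∈ A ∧ ∃ w, T3 x y A e w} with hA3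
  have hsub : A ⊆ A1 ∪ (A2 ∪ A3) := by
    intro e he
    by_cases h1 : e ∈ A1
    · exact Or.inl h1
    by_cases h2 : e ∈ A2
    · exact Or.inr (Or.inl h2)
    refine Or.inr (Or.inr ⟨he, ?_⟩)
    have k1 : ¬ ∀ g ∈ A, g.1 = e.1 → sl x y g ≤ sl x y e := fun hh => h1 ⟨he, hh⟩
    have k2 : ¬ ∀ g ∈ A, g.2 = e.2 → sl x y e ≤ sl x y g := fun hh => h2 ⟨he, hh⟩
    push Not at k1 k2
    exact h.three he k1 k2
  have c1 : A1.ncard ≤ Nat.card V := by
    rw [← Set.ncard_univ]
    refine Set.ncard_le_ncard_of_injOn Prod.fst (fun _ _ => Set.mem_univ _) ?_ (Set.toFinite _)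
    intro e he g hg heg
    by_contra hne
    have h1 : sl x y e = sl x y g := le_antisymm (hg.2 e he.1 heg) (he.2 g hg.1 heg.symm)
    have l1 := h.lt e he.1
    have l2 := h.lt g hg.1
    have l3 : x e.1 = x g.1 := by rw [heg]
    have l4 : y e.1 = y g.1 := by rw [heg]
    obtain ⟨t, ht1, ht2⟩ := exists_between (lt_min l1 (l3 ▸ l2))
    rw [lt_min_iff] at ht2
    refine h.crs e he.1 g hg.1 hne t ht1 ht2.1 (l3 ▸ ht1) ht2.2 ?_
    unfold ht
    rw [h1, l3, l4]
  have c2 : A2.ncard ≤ Nat.card V := by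
    rw [← Set.ncard_univ]
    refine Set.ncard_le_ncard_of_injOn Prod.snd (fun _ _ => Set.mem_univ _) ?_ (Set.toFinite _)
    intro e he g hg heg
    by_contra hne
    have h1 : sl x y e = sl x y g := le_antisymm (he.2 g hg.1 heg.symm) (hg.2 e he.1 heg)
    have l1 := h.lt e he.1
    have l2 := h.lt g hg.1
    have l3 : x e.2 = x g.2 := by rw [heg]
    have l4 : y e.2 = y g.2 := by rw [heg]
    obtain ⟨t, ht1, ht2⟩ := exists_between (max_lt l1 (l3.symm ▸ l2))
    rw [max_lt_iff] at ht1
    refine h.crs e he.1 g hg.1 hne t ht1.1 ht2 ht1.2 (l3 ▸ ht2) ?_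
    rw [ht_snd' l1, ht_snd' l2, h1, l3, l4]
  have c3 : A3.ncard ≤ Nat.card V := by
    rw [← Set.ncard_univ]
    have hex : ∀ e : V × V, ∃ w : V, e ∈ A3 → T3 x y A e w := by
      intro e
      by_cases he : e ∈ A3
      · obtain ⟨w, hw⟩ := he.2
        exact ⟨w, fun _ => hw⟩
      · exact ⟨e.1, fun hh => (he hh).elim⟩
    choose φ hφ using hex
    refine Set.ncard_le_ncard_of_injOn φ (fun _ _ => Set.mem_univ _) ?_ (Set.toFinite _)
    intro e he g hg heg
    by_contra hne
    obtain ⟨a1, a2, a3, a4⟩ := hφ e he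
    obtain ⟨b1, b2, b3, b4⟩ := hφ g hg
    rw [← heg] at b1 b2 b3 b4
    rcases lt_trichotomy (ht x y e (x (φ e))) (ht x y g (x (φ e))) with hc | hc | hc
    · exact a4 g hg.1 b1 b2 hc b3
    · exact h.crs e he.1 g hg.1 hne _ a1 a2 b1 b2 hc
    · exact b4 e he.1 a1 a2 hc a3
  have d1 : A.ncard ≤ (A1 ∪ (A2 ∪ A3)).ncard := Set.ncard_le_ncard hsub (Set.toFinite _)
  have d2 := Set.ncard_union_le A1 (A2 ∪ A3)
  have d3 := Set.ncard_union_le A2 A3
  omega

/-- the directed edges with direction in the half-open first quadrant -/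
def cls (H : SimpleGraph V) (f : V → ℂ) : Set (V × V) :=
  {e | H.Adj e.1 e.2 ∧ (f e.1).re < (f e.2).re ∧ (f e.1).im ≤ (f e.2).im}

theorem pl_cls {H : SimpleGraph V} {f : V → ℂ} (hf : IsRAC H f) :
    Pl (fun v => (f v).re) (fun v => (f v).im) (cls H f) where
  inj := fun u v h1 h2 => hf.inj (Complex.ext h1 h2)
  lt := fun e he => he.2.1
  vtx := by
    rintro e ⟨hadj, hlt, hle⟩ w h1 h2 h3
    refine hf.vtx e.1 e.2 w hadj ?_ ?_ ?_
    · rintro rfl
      exact lt_irrefl _ h1
    · rintro rfl
      exact lt_irrefl _ h2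
    · rw [mem_segment_iff]
      have h0 : 0 < (f e.2).re - (f e.1).re := by linarith
      refine ⟨((f w).re - (f e.1).re) / ((f e.2).re - (f e.1).re),
        div_nonneg (by linarith) h0.le, (div_le_one h0).mpr (by linarith), ?_, ?_⟩
      · field_simp
        ring
      · unfold ht sl at h3
        simp only at h3
        rw [h3]
        field_simp
        ring
  crs := by
    rintro e ⟨hadj, hlt, hle⟩ g ⟨hadj', hlt', hle'⟩ hne t h1 h2 h3 h4 h5
    have key : ∀ k : V × V, (f k.1).re < t → t < (f k.2).re →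
        (⟨t, ht (fun v => (f v).re) (fun v => (f v).im) k t⟩ : ℂ) ∈
          openSegment ℝ (f k.1) (f k.2) := by
      intro k k1 k2
      rw [mem_openSegment_iff]
      have h0 : 0 < (f k.2).re - (f k.1).re := by linarith
      refine ⟨(t - (f k.1).re) / ((f k.2).re - (f k.1).re), div_pos (by linarith) h0,
        (div_lt_one h0).mpr (by linarith), ?_, ?_⟩
      · field_simp
        ring
      · unfold ht sl
        simp only
        field_simp
        ring
    have hs : s(e.1, e.2) ≠ s(g.1, g.2) := by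
      intro hh
      rw [Sym2.eq_iff] at hh
      rcases hh with ⟨q1, q2⟩ | ⟨q1, q2⟩
      · exact hne (Prod.ext q1 q2)
      · rw [q1, q2] at hlt
        exact lt_asymm hlt hlt'
    have k1 := key e h1 h2
    have k2 := key g h3 h4
    rw [← h5] at k2
    have h6 := hf.dot hadj hadj' hs k1 k2
    unfold dotp at h6
    have h7 : 0 < ((f e.2).re - (f e.1).re) * ((f g.2).re - (f g.1).re) :=
      mul_pos (by linarith) (by linarith)
    have h8 : 0 ≤ ((f e.2).im - (f e.1).im) * ((f g.2).im - (f g.1).im) :=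
      mul_nonneg (by linarith) (by linarith)
    linarith

/-- rotation by a right angle -/
theorem rot {H : SimpleGraph V} {f : V → ℂ} (hf : IsRAC H f) :
    IsRAC H ((fun z => -Complex.I * z) ∘ f) := by
  refine hf.comp (fun z => -Complex.I * z) (LinearMap.mulLeft ℝ (-Complex.I)) ?_ ?_ 1 ?_
  · intro z w h
    simpa using h
  · intro z w
    simp only [LinearMap.mulLeft_apply]
    ring
  · intro z w
    simp only [LinearMap.mulLeft_apply, Complex.mul_re, Complex.mul_im, Complex.conj_re,
      Complex.conj_im, Complex.neg_re, Complex.neg_im, Complex.I_re, Complex.I_im, map_mul]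
    ring

end Lin

open Lin

/-- a graph with a straight-line right-angle-crossing drawing has at most `6 n` edges -/
theorem rac_edges_le [Finite V] {H : SimpleGraph V} {f : V → ℂ} (hf : IsRAC H f) :
    H.edgeSet.ncard ≤ 6 * Nat.card V := by
  classical
  set g : V → ℂ := (fun z => -Complex.I * z) ∘ f with hg
  have hre : ∀ v, (g v).re = (f v).im := by
    intro v
    simp [hg, Complex.mul_re]
  have him : ∀ v, (g v).im = -(f v).re := by
    intro v
    simp [hg, Complex.mul_im]
  have h1 := (pl_cls hf).card_le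
  have h2 : (cls H g).ncard ≤ 3 * Nat.card V := (pl_cls (rot hf)).card_le
  have hsub : H.edgeSet ⊆ (fun e : V × V => s(e.1, e.2)) '' (cls H f ∪ cls H g) := by
    intro e
    induction e with
    | _ u v =>
      intro he
      have hadj : H.Adj u v := he
      have mk : ∀ a b : V, H.Adj a b → s(a, b) = s(u, v) → (a, b) ∈ cls H f ∪ cls H g →
          s(u, v) ∈ (fun e : V × V => s(e.1, e.2)) '' (cls H f ∪ cls H g) := by
        intro a b _ h2 h3
        exact ⟨(a, b), h3, h2⟩
      rcases lt_trichotomy (f u).re (f v).re with hr | hr | hr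
      · rcases le_or_gt (f u).im (f v).im with hi | hi
        · exact mk u v hadj rfl (Or.inl ⟨hadj, hr, hi⟩)
        · refine mk v u hadj.symm Sym2.eq_swap (Or.inr ⟨hadj.symm, ?_, ?_⟩)
          · simp only [hre]
            exact hi
          · simp only [him]
            linarith
      · rcases lt_trichotomy (f u).im (f v).im with hi | hi | hi
        · refine mk u v hadj rfl (Or.inr ⟨hadj, ?_, ?_⟩)
          · simp only [hre]
            exact hi
          · simp only [him]
            linarith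
        · exact absurd (hf.inj (Complex.ext hr hi)) hadj.ne
        · refine mk v u hadj.symm Sym2.eq_swap (Or.inr ⟨hadj.symm, ?_, ?_⟩)
          · simp only [hre]
            exact hi
          · simp only [him]
            linarith
      · rcases le_or_gt (f v).im (f u).im with hi | hi
        · exact mk v u hadj.symm Sym2.eq_swap (Or.inl ⟨hadj.symm, hr, hi⟩)
        · refine mk u v hadj rfl (Or.inr ⟨hadj, ?_, ?_⟩)
          · simp only [hre]
            exact hi
          · simp only [him]
            linarith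
  have h3 : H.edgeSet.ncard ≤ (cls H f ∪ cls H g).ncard :=
    (Set.ncard_le_ncard hsub (Set.toFinite _)).trans (Set.ncard_image_le (Set.toFinite _))
  have h4 := Set.ncard_union_le (cls H f) (cls H g)
  omega

/-- the same for the edges inside a set of vertices -/
theorem rac_edges_in [Finite V] {H : SimpleGraph V} {f : V → ℂ} (hf : IsRAC H f)
    (Z : Finset V) : {e | e ∈ H.edgeSet ∧ ∀ v ∈ e, v ∈ Z}.ncard ≤ 6 * Z.card := by
  classical
  set H' : SimpleGraph {v // v ∈ Z} := H.comap Subtype.val with hH'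
  have hf' : IsRAC H' (fun v => f v.1) := by
    refine ⟨fun u v h => Subtype.ext (hf.inj h), ?_, ?_⟩
    · intro u v w huv hu hv
      exact hf.vtx u.1 v.1 w.1 huv (fun h => hu (Subtype.ext h)) (fun h => hv (Subtype.ext h))
    · intro u v a b huv hab hne z h1 h2
      refine hf.crs u.1 v.1 a.1 b.1 huv hab (fun h => hne ?_) z h1 h2
      rw [Sym2.eq_iff] at h ⊢
      rcases h with ⟨q1, q2⟩ | ⟨q1, q2⟩
      · exact Or.inl ⟨Subtype.ext q1, Subtype.ext q2⟩
      · exact Or.inr ⟨Subtype.ext q1, Subtype.ext q2⟩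
  have h1 := rac_edges_le hf'
  have h2 : Nat.card {v // v ∈ Z} = Z.card := by simp
  rw [h2] at h1
  refine le_trans ?_ h1
  have hsub : {e | e ∈ H.edgeSet ∧ ∀ v ∈ e, v ∈ Z} ⊆
      (Sym2.map (Subtype.val : {v // v ∈ Z} → V)) '' H'.edgeSet := by
    intro e
    induction e with
    | _ u v =>
      rintro ⟨he, hz⟩
      have hu : u ∈ Z := hz u (Sym2.mem_mk_left u v)
      have hv : v ∈ Z := hz v (Sym2.mem_mk_right u v)
      exact ⟨s(⟨u, hu⟩, ⟨v, hv⟩), he, rfl⟩
  exact (Set.ncard_le_ncard hsub (Set.toFinite _)).trans (Set.ncard_image_le (Set.toFinite _))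

end Pool.Agent.Helper82.DG
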