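import Pool.Agent.Helper72.DG.Linear

/-!
# Dark grids, module G2: counting the edges
-/

set_option autoImplicit false

namespace Pool.Agent.Helper82.DG

open Pool.Agent.Helper18.RAC Complex

variable {V : Type*}

/-- with `rac_edges_in` of Helper72/DG/Linear.lean -/
theorem count_le [Finite V] {H : SimpleGraph V} {f : V → ℂ} (hf : IsRAC H f) (Dk Z : Finset V)
    (hcov : ∀ v, v ∈ Dk ∨ v ∈ Z) (L : Set (Sym2 V)) (R : V → Set ℂ)
    (hmem : ∀ x ∈ Dk, f x ∈ R x)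
    (hnbr : ∀ x ∈ Dk, ∀ v, H.Adj x v → s(x, v) ∈ L ∨ f v ∈ R x)
    (hdj : ∀ x ∈ Dk, ∀ y ∈ Dk, x ≠ y → Disjoint (R x) (R y)) :
    H.edgeSet.ncard ≤ L.ncard + 7 * Z.card := by
  classical
  set A : Set (Sym2 V) := {e | e ∈ H.edgeSet ∧ ∀ v ∈ e, v ∈ Z} with hA
  set T : Set (Sym2 V) := {e | ∃ x ∈ Dk, ∃ v ∈ Z, e = s(x, v) ∧ f v ∈ R x} with hT
  have h1 : A.ncard ≤ 6 * Z.card := rac_edges_in hf Z
  have huniq : ∀ x ∈ Dk, ∀ x' ∈ Dk, ∀ v, f v ∈ R x → f v ∈ R x' → x = x' := by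
    intro x hx x' hx' v h2 h3
    by_contra hne
    exact Set.disjoint_left.mp (hdj x hx x' hx' hne) h2 h3
  have hex : ∀ v : V, ∃ x : V, (∃ x' ∈ Dk, f v ∈ R x') → x ∈ Dk ∧ f v ∈ R x := by
    intro v
    by_cases h2 : ∃ x' ∈ Dk, f v ∈ R x'
    · obtain ⟨x, hx, hx'⟩ := h2
      exact ⟨x, fun _ => ⟨hx, hx'⟩⟩
    · exact ⟨v, fun h3 => (h2 h3).elim⟩
  choose φ hφ using hex
  have h2 : T.ncard ≤ Z.card := by
    have hsub : T ⊆ (fun v => s(φ v, v)) '' (Z : Set V) := by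
      rintro e ⟨x, hx, v, hv, rfl, h3⟩
      refine ⟨v, hv, ?_⟩
      obtain ⟨h4, h5⟩ := hφ v ⟨x, hx, h3⟩
      have h6 := huniq _ h4 x hx v h5 h3
      simp only [h6]
    calc T.ncard ≤ ((fun v => s(φ v, v)) '' (Z : Set V)).ncard :=
          Set.ncard_le_ncard hsub (Set.toFinite _)
      _ ≤ (Z : Set V).ncard := Set.ncard_image_le (Set.toFinite _)
      _ = Z.card := Set.ncard_coe_finset Z
  have key : ∀ x v : V, H.Adj x v → x ∈ Dk → s(x, v) ∈ L ∪ (A ∪ T) := by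
    intro x v hadj hx
    rcases hnbr x hx v hadj with h3 | h3
    · exact Or.inl h3
    · refine Or.inr (Or.inr ⟨x, hx, v, ?_, rfl, h3⟩)
      rcases hcov v with h4 | h4
      · exact absurd (huniq x hx v h4 v h3 (hmem v h4)) hadj.ne
      · exact h4
  have hsub : H.edgeSet ⊆ L ∪ (A ∪ T) := by
    intro e
    induction e with
    | _ u v =>
      intro he
      have hadj : H.Adj u v := he
      rcases hcov u with hu | hu
      · exact key u v hadj hu
      rcases hcov v with hv | hv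
      · have h3 := key v u hadj.symm hv
        rwa [Sym2.eq_swap] at h3
      refine Or.inr (Or.inl ⟨he, ?_⟩)
      intro w hw
      rcases Sym2.mem_iff.mp hw with rfl | rfl
      · exact hu
      · exact hv
  have h3 := Set.ncard_le_ncard hsub (Set.toFinite _)
  have h4 := Set.ncard_union_le L (A ∪ T)
  have h5 := Set.ncard_union_le A T
  omega

end Pool.Agent.Helper82.DG
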